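import Pool.Agent.Q72.EG.Stm

/-! # Project EG (helper72), job GROW (helper96) -/

set_option autoImplicit false

namespace Pool.Agent.Q96.EG

open Filter Topology Finset
open Pool.Agent.H581R2
open Pool.Agent.Q72.EG

/-- polynomial upper bound -/
theorem upper (g : Polynomial ℝ) : ∃ D : ℕ, ∀ᶠ t : ℝ in atTop, |g.eval t| ≤ t ^ D := by
  refine ⟨g.natDegree + 1, ?_⟩
  filter_upwards [eventually_ge_atTop 1,
    eventually_ge_atTop (∑ i ∈ range (g.natDegree + 1), |g.coeff i|)] with t h1 h2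
  rw [Polynomial.eval_eq_sum_range]
  have h0 : (0 : ℝ) ≤ t := by linarith
  calc |∑ i ∈ range (g.natDegree + 1), g.coeff i * t ^ i|
      ≤ ∑ i ∈ range (g.natDegree + 1), |g.coeff i * t ^ i| := abs_sum_le_sum_abs _ _
    _ ≤ ∑ i ∈ range (g.natDegree + 1), |g.coeff i| * t ^ g.natDegree := by
        refine sum_le_sum fun i hi => ?_
        rw [abs_mul, abs_pow, abs_of_nonneg h0]
        refine mul_le_mul_of_nonneg_left (pow_le_pow_right₀ h1 ?_) (abs_nonneg _)
        have := mem_range.1 hi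
        omega
    _ = (∑ i ∈ range (g.natDegree + 1), |g.coeff i|) * t ^ g.natDegree := by rw [sum_mul]
    _ ≤ t * t ^ g.natDegree := mul_le_mul_of_nonneg_right h2 (by positivity)
    _ = t ^ (g.natDegree + 1) := by ring

/-- lower bound and sign of a nonzero polynomial -/
theorem lower (g : Polynomial ℝ) (hg : g ≠ 0) : ∃ c : ℝ, 0 < c ∧ ∀ᶠ t : ℝ in atTop,
    c ≤ |g.eval t| := by
  rcases Nat.eq_zero_or_pos g.natDegree with h | h
  · rw [Polynomial.natDegree_eq_zero] at h
    obtain ⟨a, rfl⟩ := h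
    have ha : a ≠ 0 := by
      rintro rfl
      exact hg (by simp)
    refine ⟨|a|, abs_pos.2 ha, Eventually.of_forall fun t => ?_⟩
    simp
  · refine ⟨1, one_pos, ?_⟩
    have h1 : 0 < g.degree := Polynomial.natDegree_pos_iff_degree_pos.1 h
    exact (Polynomial.abs_tendsto_atTop g h1).eventually_ge_atTop 1

theorem sign_add {a e : ℝ} (h : |e| < |a|) : SignType.sign (a + e) = SignType.sign a := by
  rcases lt_trichotomy a 0 with ha | ha | ha
  · rw [abs_of_neg ha] at h
    rw [sign_neg ha, sign_neg]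
    have := le_abs_self e
    linarith
  · rw [ha, abs_zero] at h
    exact absurd h (not_lt.2 (abs_nonneg _))
  · rw [abs_of_pos ha] at h
    rw [sign_pos ha, sign_pos]
    have := neg_abs_le e
    linarith

/-- the sign of a polynomial in two variables is constant for `t` large and `r ≥ t^D` -/
theorem sgn_const (G : Polynomial (Polynomial ℝ)) : ∃ (D : ℕ) (σ : SignType),
    ∀ᶠ t : ℝ in atTop, ∀ r : ℝ, t ^ D ≤ r →
      SignType.sign ((G.map (Polynomial.evalRingHom t)).eval r) = σ := by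
  by_cases hG : G = 0
  · refine ⟨0, 0, Eventually.of_forall fun t r _ => ?_⟩
    rw [hG, Polynomial.map_zero, Polynomial.eval_zero, sign_zero]
  have hlc : G.leadingCoeff ≠ 0 := Polynomial.leadingCoeff_ne_zero.2 hG
  obtain ⟨c, hc, hlow⟩ := lower _ hlc
  have hsg := eventually_sign_atTop _ hlc
  choose D1 hD1 using fun g => upper g
  set d := G.natDegree with hd
  set Dm := ∑ j ∈ range d, D1 (G.coeff j) with hDm
  have hup : ∀ᶠ t : ℝ in atTop, ∀ j ∈ range d, |(G.coeff j).eval t| ≤ t ^ D1 (G.coeff j) := by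
    rw [eventually_all_finset]
    intro j _
    exact hD1 _
  refine ⟨Dm + 1, SignType.sign G.leadingCoeff.leadingCoeff, ?_⟩
  filter_upwards [hlow, hsg, hup, eventually_ge_atTop 1, eventually_gt_atTop ((d : ℝ) / c)]
    with t h1 h2 h3 h4 h5 r hr
  have hr1 : 1 ≤ r := le_trans (one_le_pow₀ h4) hr
  have hexp : (G.map (Polynomial.evalRingHom t)).eval r =
      G.leadingCoeff.eval t * r ^ d + ∑ j ∈ range d, (G.coeff j).eval t * r ^ j := by
    rw [Polynomial.eval_eq_sum_range' (n := d + 1)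
      (Nat.lt_succ_of_le Polynomial.natDegree_map_le), sum_range_succ, add_comm]
    simp only [Polynomial.coeff_map, Polynomial.coe_evalRingHom]
    rfl
  have hE : |∑ j ∈ range d, (G.coeff j).eval t * r ^ j| < |G.leadingCoeff.eval t * r ^ d| := by
    rw [abs_mul, abs_pow, abs_of_pos (by linarith : (0 : ℝ) < r)]
    rcases Nat.eq_zero_or_pos d with h0 | h0
    · rw [h0, range_zero, sum_empty, abs_zero, pow_zero, mul_one]
      linarith
    · have e1 : |∑ j ∈ range d, (G.coeff j).eval t * r ^ j| ≤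
          ∑ j ∈ range d, t ^ Dm * r ^ (d - 1) := by
        refine (abs_sum_le_sum_abs _ _).trans (sum_le_sum fun j hj => ?_)
        rw [abs_mul, abs_pow, abs_of_pos (by linarith : (0 : ℝ) < r)]
        refine mul_le_mul ((h3 j hj).trans (pow_le_pow_right₀ h4 ?_))
          (pow_le_pow_right₀ hr1 ?_) (by positivity) (by positivity)
        · rw [hDm]
          exact single_le_sum (f := fun j => D1 (G.coeff j)) (fun _ _ => Nat.zero_le _) hj
        · have := mem_range.1 hj
          omega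
      rw [sum_const, card_range, nsmul_eq_mul] at e1
      have e2 : (d : ℝ) < c * t := by
        rw [div_lt_iff₀ hc] at h5
        linarith
      calc |∑ j ∈ range d, (G.coeff j).eval t * r ^ j| ≤ d * (t ^ Dm * r ^ (d - 1)) := e1
        _ < (c * t) * (t ^ Dm * r ^ (d - 1)) := mul_lt_mul_of_pos_right e2 (by positivity)
        _ = c * (t ^ (Dm + 1) * r ^ (d - 1)) := by ring
        _ ≤ c * (r * r ^ (d - 1)) := mul_le_mul_of_nonneg_left
            (mul_le_mul_of_nonneg_right hr (by positivity)) hc.le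
        _ = c * r ^ d := by
            rw [← pow_succ']
            congr 2
            omega
        _ ≤ |G.leadingCoeff.eval t| * r ^ d := mul_le_mul_of_nonneg_right h1 (by positivity)
  rw [hexp, sign_add hE, sign_mul, h2, sign_pos (by positivity : (0 : ℝ) < r ^ d), mul_one]

theorem grow : S_grow := by
  classical
  intro N n p hp s hL
  -- the predicate with bounded `k`
  let P2 : (Fin N ⊕ (Fin 1 ⊕ Fin 1) → ℝ) → Prop := fun v =>
    ∃ k : Fin n → ℝ, (∀ l ∈ (univ : Finset (Fin n)), -(v (Sum.inr (Sum.inr 0))) ≤ k l ∧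
      k l ≤ v (Sum.inr (Sum.inr 0))) ∧
      p (Sum.elim (fun i => v (Sum.inl i)) (Sum.elim (fun _ => v (Sum.inr (Sum.inl 0))) k))
  have hP2 : SAP P2 := by
    let q : ((Fin N ⊕ (Fin 1 ⊕ Fin 1)) ⊕ Fin n → ℝ) → Prop := fun u =>
      (∀ l ∈ (univ : Finset (Fin n)), -(u (Sum.inl (Sum.inr (Sum.inr 0)))) ≤ u (Sum.inr l) ∧
        u (Sum.inr l) ≤ u (Sum.inl (Sum.inr (Sum.inr 0)))) ∧
      p (Sum.elim (fun i => u (Sum.inl (Sum.inl i)))
        (Sum.elim (fun _ => u (Sum.inl (Sum.inr (Sum.inl 0)))) fun l => u (Sum.inr l)))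
    have hq : SAP q := by
      refine (SAP.forall_mem _ fun l _ => (SAP.le (PF.coord _).neg (PF.coord _)).and
        (SAP.le (PF.coord _) (PF.coord _))).and (hp.preimage ?_)
      rintro (i | i | i)
      · exact PF.coord _
      · exact PF.coord _
      · exact PF.coord _
    exact SAP.exists_block n hq
  obtain ⟨Q, hQ⟩ := hP2
  -- the polynomials in `(t, r)`
  let Φ : MvPolynomial (Fin N ⊕ (Fin 1 ⊕ Fin 1)) ℚ → Polynomial (Polynomial ℝ) := fun g =>
    MvPolynomial.aeval (Sum.elim (fun i => Polynomial.C (Polynomial.C (s i)))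
      (Sum.elim (fun _ => Polynomial.C Polynomial.X) (fun _ => Polynomial.X))) g
  have hΦ : ∀ (g : MvPolynomial (Fin N ⊕ (Fin 1 ⊕ Fin 1)) ℚ) (t r : ℝ),
      ((Φ g).map (Polynomial.evalRingHom t)).eval r =
      MvPolynomial.aeval (Sum.elim s (Sum.elim (fun _ => t) (fun _ => r))) g := by
    intro g t r
    let ψ : Polynomial (Polynomial ℝ) →+* ℝ :=
      (Polynomial.evalRingHom r).comp (Polynomial.mapRingHom (Polynomial.evalRingHom t))
    have h1 : ((Φ g).map (Polynomial.evalRingHom t)).eval r = ψ (Φ g) := rfl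
    rw [h1]
    have h2 : ψ (Φ g) = MvPolynomial.eval₂ (ψ.comp (algebraMap ℚ _))
        (fun i => ψ ((Sum.elim (fun i => Polynomial.C (Polynomial.C (s i)))
          (Sum.elim (fun _ => Polynomial.C Polynomial.X) (fun _ => Polynomial.X)) :
          Fin N ⊕ (Fin 1 ⊕ Fin 1) → Polynomial (Polynomial ℝ)) i)) g := by
      show ψ (MvPolynomial.aeval _ g) = _
      rw [MvPolynomial.aeval_def, MvPolynomial.hom_eval₂]
    rw [h2, MvPolynomial.aeval_def]
    congr 1
    · exact Subsingleton.elim _ _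
    · funext i
      rcases i with i | i | i
      · simp [ψ]
      · simp [ψ]
      · simp [ψ]
  choose D σ hD using fun g => sgn_const (Φ g)
  set Dm := ∑ g ∈ Q, D g with hDm
  have hall : ∀ᶠ t : ℝ in atTop, ∀ g ∈ Q, ∀ r : ℝ, t ^ D g ≤ r →
      SignType.sign (((Φ g).map (Polynomial.evalRingHom t)).eval r) = σ g := by
    rw [eventually_all_finset]
    intro g _
    exact hD g
  obtain ⟨L, hLL⟩ := eventually_atTop.1 (hall.and (eventually_ge_atTop (1 : ℝ)))
  have hsign : ∀ t r : ℝ, L ≤ t → t ^ Dm ≤ r → ∀ g ∈ Q,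
      SignType.sign (MvPolynomial.aeval (Sum.elim s (Sum.elim (fun _ => t) (fun _ => r)) :
        Fin N ⊕ (Fin 1 ⊕ Fin 1) → ℝ) g) = σ g := by
    intro t r ht hr g hg
    obtain ⟨h1, h2⟩ := hLL t ht
    rw [← hΦ]
    apply h1 g hg
    refine le_trans (pow_le_pow_right₀ h2 ?_) hr
    rw [hDm]
    exact single_le_sum (f := D) (fun _ _ => Nat.zero_le _) hg
  -- a point where the condition holds
  obtain ⟨t0, ht0, k0, hk0⟩ := hL L
  have hS0 : P2 (Sum.elim s (Sum.elim (fun _ => t0) (fun _ => max ‖k0‖ (t0 ^ Dm)))) := by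
    refine ⟨k0, fun l _ => ?_, hk0⟩
    have h1 : |k0 l| ≤ ‖k0‖ := by
      have := norm_le_pi_norm k0 l
      rwa [Real.norm_eq_abs] at this
    have h2 : |k0 l| ≤ max ‖k0‖ (t0 ^ Dm) := h1.trans (le_max_left _ _)
    exact abs_le.1 h2
  refine ⟨(Dm : ℝ), L, fun t ht => ?_⟩
  have hS : P2 (Sum.elim s (Sum.elim (fun _ => t) (fun _ => t ^ Dm))) := by
    refine hQ _ _ (fun g hg => ?_) hS0
    rw [hsign t0 _ ht0 (le_max_right _ _) g hg, hsign t _ ht le_rfl g hg]
  obtain ⟨k, hk, hpk⟩ := hS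
  refine ⟨k, ?_, hpk⟩
  rw [Real.rpow_natCast]
  have h1 : (0 : ℝ) ≤ t ^ Dm := by
    have := (hLL t ht).2
    positivity
  rw [pi_norm_le_iff_of_nonneg h1]
  intro l
  rw [Real.norm_eq_abs]
  exact abs_le.2 (hk l (mem_univ l))

end Pool.Agent.Q96.EG
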