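import Pool.Agent.Q72.EG.Stm2
import Pool.Agent.Q96.EG.Grow

/-! # Project EG (helper72), job TAME (helper96) -/

set_option autoImplicit false

namespace Pool.Agent.Q96.EG

open MvPolynomial Filter Topology Pool.Agent.W996.EC Pool.Agent.Q72.EG Pool.Agent.H581R2

/-! ### polynomial dependence of the coefficients -/

section PFs

variable {J : Type}

/-- complex valued functions with polynomial real and imaginary parts -/
def CF (f : (J → ℝ) → ℂ) : Prop := PF (fun v => (f v).re) ∧ PF (fun v => (f v).im)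

theorem CF.add {f g : (J → ℝ) → ℂ} (hf : CF f) (hg : CF g) : CF (fun v => f v + g v) :=
  ⟨by simpa only [Complex.add_re] using hf.1.add hg.1,
    by simpa only [Complex.add_im] using hf.2.add hg.2⟩

theorem CF.sub {f g : (J → ℝ) → ℂ} (hf : CF f) (hg : CF g) : CF (fun v => f v - g v) :=
  ⟨by simpa only [Complex.sub_re] using hf.1.sub hg.1,
    by simpa only [Complex.sub_im] using hf.2.sub hg.2⟩

theorem CF.mul {f g : (J → ℝ) → ℂ} (hf : CF f) (hg : CF g) : CF (fun v => f v * g v) :=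
  ⟨by simpa only [Complex.mul_re] using (hf.1.mul hg.1).sub (hf.2.mul hg.2),
    by simpa only [Complex.mul_im] using (hf.1.mul hg.2).add (hf.2.mul hg.1)⟩

theorem CF.ofReal {f : (J → ℝ) → ℝ} (hf : PF f) : CF (fun v => ((f v : ℝ) : ℂ)) :=
  ⟨by simpa only [Complex.ofReal_re] using hf, by simpa only [Complex.ofReal_im] using PF.zero⟩

theorem CF.zero : CF (fun _ : J → ℝ => (0 : ℂ)) := ⟨PF.zero, PF.zero⟩

theorem CF.one : CF (fun _ : J → ℝ => (1 : ℂ)) :=
  ⟨by simpa only [Complex.one_re] using PF.one, by simpa only [Complex.one_im] using PF.zero⟩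

theorem CF.I : CF (fun _ : J → ℝ => Complex.I) :=
  ⟨by simpa only [Complex.I_re] using PF.zero, by simpa only [Complex.I_im] using PF.one⟩

theorem CF.sum {α : Type*} (s : Finset α) {f : α → (J → ℝ) → ℂ} (hf : ∀ a ∈ s, CF (f a)) :
    CF (fun v => ∑ a ∈ s, f a v) :=
  ⟨by simpa only [Complex.re_sum] using PF.sum s fun a ha => (hf a ha).1,
    by simpa only [Complex.im_sum] using PF.sum s fun a ha => (hf a ha).2⟩

variable {n : ℕ}

/-- all coefficients depend polynomially on `v` -/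
def PP (F : (J → ℝ) → MvPolynomial (Fin n) ℂ) : Prop := ∀ μ, CF (fun v => coeff μ (F v))

theorem PP.add {F G : (J → ℝ) → MvPolynomial (Fin n) ℂ} (hF : PP F) (hG : PP G) :
    PP (fun v => F v + G v) := fun μ => by
  simpa only [coeff_add] using (hF μ).add (hG μ)

theorem PP.mul {F G : (J → ℝ) → MvPolynomial (Fin n) ℂ} (hF : PP F) (hG : PP G) :
    PP (fun v => F v * G v) := fun μ => by
  simpa only [coeff_mul] using CF.sum (Finset.HasAntidiagonal.antidiagonal μ) fun x _ =>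
    (hF x.1).mul (hG x.2)

theorem PP.C {f : (J → ℝ) → ℂ} (hf : CF f) : PP (n := n) (fun v => C (f v)) := fun μ => by
  simp only [coeff_C]
  split_ifs
  · exact hf
  · exact CF.zero

theorem PP.X (i : Fin n) : PP (fun _ : J → ℝ => (X i : MvPolynomial (Fin n) ℂ)) := fun μ => by
  simp only [coeff_X]
  split_ifs
  · exact CF.one
  · exact CF.zero

theorem PP.pow {F : (J → ℝ) → MvPolynomial (Fin n) ℂ} (hF : PP F) (m : ℕ) :
    PP (fun v => F v ^ m) := by
  induction m with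
  | zero =>
    have : (fun v : J → ℝ => F v ^ 0) = fun _ => MvPolynomial.C (1 : ℂ) := by
      funext v
      rw [pow_zero, map_one]
    rw [this]
    exact PP.C CF.one
  | succ m ih =>
    have : (fun v : J → ℝ => F v ^ (m + 1)) = fun v => F v ^ m * F v := by
      funext v
      rw [pow_succ]
    rw [this]
    exact ih.mul hF

theorem PP.sum {α : Type*} (s : Finset α) {F : α → (J → ℝ) → MvPolynomial (Fin n) ℂ}
    (hF : ∀ a ∈ s, PP (F a)) : PP (fun v => ∑ a ∈ s, F a v) := fun μ => by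
  simpa only [coeff_sum] using CF.sum s fun a ha => hF a ha μ

theorem PP.prod {α : Type*} (s : Finset α) {F : α → (J → ℝ) → MvPolynomial (Fin n) ℂ}
    (hF : ∀ a ∈ s, PP (F a)) : PP (fun v => ∏ a ∈ s, F a v) := by
  classical
  induction s using Finset.induction_on with
  | empty =>
    have : (fun v : J → ℝ => ∏ a ∈ (∅ : Finset α), F a v) = fun _ => MvPolynomial.C (1 : ℂ) := by
      funext v
      rw [Finset.prod_empty, map_one]
    rw [this]
    exact PP.C CF.one
  | insert a s ha ih =>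
    have : (fun v : J → ℝ => ∏ b ∈ insert a s, F b v) = fun v => F a v * ∏ b ∈ s, F b v := by
      funext v
      rw [Finset.prod_insert ha]
    rw [this]
    exact (hF a (by simp)).mul (ih fun b hb => hF b (by simp [hb]))

/-- the transformed polynomial as a function of the data -/
noncomputable def Fv {A : Finset (Fin n →₀ ℕ)} (re im : A → J) (t : J) (k : Fin n → J)
    (v : J → ℝ) : MvPolynomial (Fin n) ℂ :=
  ∑ ν : A, MvPolynomial.C ((v (re ν) : ℂ) + (v (im ν) : ℂ) * Complex.I) *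
    ∏ i, (MvPolynomial.C (v t : ℂ) * MvPolynomial.X i +
      MvPolynomial.C (Complex.I * (v (k i) : ℂ))) ^ (ν.1 i)

theorem PP.Fv {A : Finset (Fin n →₀ ℕ)} (re im : A → J) (t : J) (k : Fin n → J) :
    PP (Fv re im t k) := by
  unfold Pool.Agent.Q96.EG.Fv
  refine PP.sum _ fun ν _ => (PP.C ?_).mul (PP.prod _ fun i _ => PP.pow ?_ _)
  · exact (CF.ofReal (PF.coord _)).add ((CF.ofReal (PF.coord _)).mul CF.I)
  · exact ((PP.C (CF.ofReal (PF.coord _))).mul (PP.X i)).add
      (PP.C (CF.I.mul (CF.ofReal (PF.coord _))))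

theorem Fv_eq {A : Finset (Fin n →₀ ℕ)} (re im : A → J) (t : J) (k : Fin n → J) (v : J → ℝ)
    (P : MvPolynomial (Fin n) ℂ) (hA : ∀ μ, μ ∉ A → coeff μ P = 0)
    (hre : ∀ ν : A, v (re ν) = (coeff ν.1 P).re) (him : ∀ ν : A, v (im ν) = (coeff ν.1 P).im) :
    Fv re im t k v = tr (v t) (fun i => v (k i)) P := by
  classical
  unfold Fv tr
  rw [bind₁, aeval_def, eval₂_eq']
  have h1 : P.support ⊆ A := by
    intro μ hμ
    by_contra h
    exact (mem_support_iff.1 hμ) (hA μ h)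
  rw [Finset.sum_subset h1 (fun μ _ hμ => by
    rw [notMem_support_iff.1 hμ, map_zero, zero_mul])]
  rw [← Finset.sum_coe_sort A]
  refine Finset.sum_congr rfl fun ν _ => ?_
  have h2 : ((v (re ν) : ℂ) + (v (im ν) : ℂ) * Complex.I) = coeff ν.1 P := by
    rw [hre, him]
    exact Complex.re_add_im _
  rw [h2]
  rfl

end PFs

/-! ### the growth theorem for arbitrary finite sets of parameters -/

theorem grow' (hg : S_grow) {ι : Type} [Fintype ι] (n : ℕ) (p : (ι ⊕ (Fin 1 ⊕ Fin n) → ℝ) → Prop)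
    (hp : SAP p) (s : ι → ℝ)
    (h : ∀ L : ℝ, ∃ t : ℝ, L ≤ t ∧ ∃ k : Fin n → ℝ, p (Sum.elim s (Sum.elim (fun _ => t) k))) :
    ∃ D L : ℝ, ∀ t : ℝ, L ≤ t → ∃ k : Fin n → ℝ, ‖k‖ ≤ t ^ D ∧
      p (Sum.elim s (Sum.elim (fun _ => t) k)) := by
  let e : ι ≃ Fin (Fintype.card ι) := Fintype.equivFin ι
  let p' : (Fin (Fintype.card ι) ⊕ (Fin 1 ⊕ Fin n) → ℝ) → Prop := fun v =>
    p (Sum.elim (fun i => v (Sum.inl (e i))) (fun j => v (Sum.inr j)))
  have hp' : SAP p' := by
    refine hp.preimage ?_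
    rintro (i | j)
    · exact PF.coord _
    · exact PF.coord _
  have heq : ∀ (t : ℝ) (k : Fin n → ℝ),
      p' (Sum.elim (fun i => s (e.symm i)) (Sum.elim (fun _ => t) k)) ↔
        p (Sum.elim s (Sum.elim (fun _ => t) k)) := by
    intro t k
    show p _ ↔ p _
    have : (Sum.elim (fun i => (Sum.elim (fun i => s (e.symm i)) (Sum.elim (fun _ => t) k) :
        Fin (Fintype.card ι) ⊕ (Fin 1 ⊕ Fin n) → ℝ) (Sum.inl (e i)))
        (fun j => (Sum.elim (fun i => s (e.symm i)) (Sum.elim (fun _ => t) k) :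
        Fin (Fintype.card ι) ⊕ (Fin 1 ⊕ Fin n) → ℝ) (Sum.inr j)) : ι ⊕ (Fin 1 ⊕ Fin n) → ℝ) =
        Sum.elim s (Sum.elim (fun _ => t) k) := by
      funext j
      rcases j with i | j
      · simp
      · rfl
    rw [this]
  obtain ⟨D, L, hDL⟩ := hg _ n p' hp' (fun i => s (e.symm i)) (by
    intro L
    obtain ⟨t, ht, k, hk⟩ := h L
    exact ⟨t, ht, k, (heq t k).2 hk⟩)
  refine ⟨D, L, fun t ht => ?_⟩
  obtain ⟨k, hk, hpk⟩ := hDL t ht
  exact ⟨k, hk, (heq t k).1 hpk⟩

/-- comparison of powers with the logarithm -/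
theorem log_small (D : ℝ) (m : ℕ) : ∀ᶠ t : ℝ in atTop, ∀ x : ℝ, 0 ≤ x → x ≤ t ^ D →
    (m : ℝ) ≤ t / Real.log (2 + t + x) := by
  obtain ⟨e, he⟩ : ∃ e : ℕ, D ≤ e := exists_nat_ge D
  have h1 : (0 : ℝ) < 1 / ((m : ℝ) * (e + 3 : ℕ) + 1) := by positivity
  have h2 := Real.isLittleO_log_id_atTop.def h1
  filter_upwards [h2, eventually_ge_atTop 2] with t ht ht2 x hx0 hx
  have ht1 : (1 : ℝ) ≤ t := by linarith
  have h3 : x ≤ t ^ e := by
    refine hx.trans ?_
    rw [← Real.rpow_natCast]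
    exact Real.rpow_le_rpow_of_exponent_le ht1 he
  have h4 : 2 + t + x ≤ t ^ (e + 3) := by
    have h5 : t ≤ t ^ (e + 1) := le_self_pow₀ ht1 (by omega)
    have h6 : t ^ e ≤ t ^ (e + 1) := pow_le_pow_right₀ ht1 (by omega)
    have h7 : 3 * t ^ (e + 1) ≤ t ^ (e + 3) := by
      have : t ^ (e + 3) = t ^ 2 * t ^ (e + 1) := by ring
      rw [this]
      refine mul_le_mul_of_nonneg_right ?_ (by positivity)
      nlinarith
    linarith
  have h5 : Real.log (2 + t + x) ≤ (e + 3 : ℕ) * Real.log t := by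
    rw [← Real.log_pow]
    exact Real.log_le_log (by linarith) h4
  have h6 : 0 < Real.log (2 + t + x) := Real.log_pos (by linarith)
  rw [le_div_iff₀ h6]
  have h7 : Real.log t ≤ 1 / ((m : ℝ) * (e + 3 : ℕ) + 1) * t := by
    have h8 : |Real.log t| ≤ 1 / ((m : ℝ) * (e + 3 : ℕ) + 1) * |t| := ht
    rw [abs_of_nonneg (by linarith : (0 : ℝ) ≤ t)] at h8
    exact (le_abs_self _).trans h8
  have h8 : 0 ≤ Real.log t := Real.log_nonneg ht1
  calc (m : ℝ) * Real.log (2 + t + x) ≤ (m : ℝ) * ((e + 3 : ℕ) * Real.log t) :=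
        mul_le_mul_of_nonneg_left h5 (Nat.cast_nonneg _)
    _ ≤ ((m : ℝ) * (e + 3 : ℕ) + 1) * Real.log t := by nlinarith
    _ ≤ ((m : ℝ) * (e + 3 : ℕ) + 1) * (1 / ((m : ℝ) * (e + 3 : ℕ) + 1) * t) :=
        mul_le_mul_of_nonneg_left h7 (by positivity)
    _ = t := by
        field_simp

theorem tame (hg : S_grow) : S_tame := by
  classical
  intro n P q hP hlim
  obtain ⟨hq, lam, k, c, hpos, hlamt, ⟨d, hd⟩, hconv⟩ := hlim
  obtain ⟨d0, hd0⟩ : ∃ d0, d0 = max P.totalDegree q.totalDegree := ⟨_, rfl⟩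
  obtain ⟨A, hAdef⟩ : ∃ A : Finset (Fin n →₀ ℕ), A =
    (Finset.range (d0 + 1)).biUnion (fun j => (Finset.univ : Finset (Fin n)).finsuppAntidiag j) :=
    ⟨_, rfl⟩
  have hA : ∀ f : MvPolynomial (Fin n) ℂ, f.totalDegree ≤ d0 → ∀ μ, μ ∉ A → coeff μ f = 0 := by
    intro f hf μ hμ
    by_contra h
    apply hμ
    have h1 := le_totalDegree (mem_support_iff.2 h)
    rw [Finsupp.sum_fintype _ _ (fun _ => rfl)] at h1
    rw [hAdef, Finset.mem_biUnion]
    exact ⟨∑ i, μ i, Finset.mem_range.2 (by omega), Finset.mem_finsuppAntidiag.2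
      ⟨rfl, Finset.subset_univ _⟩⟩
  have hAP := hA P (by rw [hd0]; exact le_max_left _ _)
  have hAq := hA q (by rw [hd0]; exact le_max_right _ _)
  have hAt : ∀ (c : ℂ) (t : ℝ) (k : Fin n → ℝ) μ, μ ∉ A → coeff μ (C c * tr t k P) = 0 := by
    intro c t k μ hμ
    apply hA _ _ μ hμ
    refine (totalDegree_mul _ _).trans ?_
    rw [totalDegree_C, zero_add, hd0]
    exact (totalDegree_tr_le _ _ _).trans (le_max_left _ _)
  have key : ∀ ε : ℝ, 0 < ε → ∃ D L : ℝ, ∀ t : ℝ, L ≤ t → ∃ k : Fin n → ℝ, ‖k‖ ≤ t ^ D ∧ 0 < t ∧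
      ∃ c : ℂ, ∀ μ ∈ A, ‖coeff μ (C c * tr t k P) - coeff μ q‖ < ε := by
    intro ε hε
    -- the parameters
    let ι : Type := Option (Bool × Bool × A)
    let s : ι → ℝ := fun o => o.elim ε fun x =>
      if x.1 then (if x.2.1 then (coeff x.2.2.1 q).im else (coeff x.2.2.1 q).re)
      else (if x.2.1 then (coeff x.2.2.1 P).im else (coeff x.2.2.1 P).re)
    let J : Type := ι ⊕ (Fin 1 ⊕ Fin n)
    let pb : (J ⊕ Fin 2 → ℝ) → Prop := fun u =>
      ∀ μ ∈ (Finset.univ : Finset A),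
        (coeff μ.1 (C ((u (Sum.inr 0) : ℂ) + (u (Sum.inr 1) : ℂ) * Complex.I) *
          Fv (J := J ⊕ Fin 2) (A := A) (fun ν => Sum.inl (Sum.inl (some (false, false, ν))))
            (fun ν => Sum.inl (Sum.inl (some (false, true, ν)))) (Sum.inl (Sum.inr (Sum.inl 0)))
            (fun i => Sum.inl (Sum.inr (Sum.inr i))) u) -
          ((u (Sum.inl (Sum.inl (some (true, false, μ)))) : ℂ) +
            (u (Sum.inl (Sum.inl (some (true, true, μ)))) : ℂ) * Complex.I)).re ^ 2 +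
        (coeff μ.1 (C ((u (Sum.inr 0) : ℂ) + (u (Sum.inr 1) : ℂ) * Complex.I) *
          Fv (J := J ⊕ Fin 2) (A := A) (fun ν => Sum.inl (Sum.inl (some (false, false, ν))))
            (fun ν => Sum.inl (Sum.inl (some (false, true, ν)))) (Sum.inl (Sum.inr (Sum.inl 0)))
            (fun i => Sum.inl (Sum.inr (Sum.inr i))) u) -
          ((u (Sum.inl (Sum.inl (some (true, false, μ)))) : ℂ) +
            (u (Sum.inl (Sum.inl (some (true, true, μ)))) : ℂ) * Complex.I)).im ^ 2 <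
          u (Sum.inl (Sum.inl none)) ^ 2
    have hpb : SAP pb := by
      refine SAP.forall_mem _ fun μ _ => ?_
      have hc : CF (fun u : J ⊕ Fin 2 → ℝ =>
          coeff μ.1 (C ((u (Sum.inr 0) : ℂ) + (u (Sum.inr 1) : ℂ) * Complex.I) *
          Fv (J := J ⊕ Fin 2) (A := A) (fun ν => Sum.inl (Sum.inl (some (false, false, ν))))
            (fun ν => Sum.inl (Sum.inl (some (false, true, ν)))) (Sum.inl (Sum.inr (Sum.inl 0)))
            (fun i => Sum.inl (Sum.inr (Sum.inr i))) u) -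
          ((u (Sum.inl (Sum.inl (some (true, false, μ)))) : ℂ) +
            (u (Sum.inl (Sum.inl (some (true, true, μ)))) : ℂ) * Complex.I)) := by
        refine CF.sub ?_ ?_
        · exact ((PP.C ((CF.ofReal (PF.coord _)).add ((CF.ofReal (PF.coord _)).mul CF.I))).mul
            (PP.Fv _ _ _ _)) μ.1
        · exact (CF.ofReal (PF.coord _)).add ((CF.ofReal (PF.coord _)).mul CF.I)
      exact SAP.lt ((hc.1.pow 2).add (hc.2.pow 2)) ((PF.coord _).pow 2)
    let p : (J → ℝ) → Prop := fun v => 0 < v (Sum.inr (Sum.inl 0)) ∧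
      ∃ x : Fin 2 → ℝ, pb (Sum.elim v x)
    have hp : SAP p := (SAP.pos (PF.coord _)).and (SAP.exists_block 2 hpb)
    -- the meaning of the predicate
    have hpm : ∀ (t : ℝ) (κ : Fin n → ℝ) (x : Fin 2 → ℝ),
        pb (Sum.elim (Sum.elim s (Sum.elim (fun _ => t) κ)) x) ↔
        ∀ μ ∈ A, ‖coeff μ (C ((x 0 : ℂ) + (x 1 : ℂ) * Complex.I) * tr t κ P) - coeff μ q‖ < ε := by
      intro t κ x
      have hF := Fv_eq (J := J ⊕ Fin 2) (A := A)
        (fun ν => Sum.inl (Sum.inl (some (false, false, ν))))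
        (fun ν => Sum.inl (Sum.inl (some (false, true, ν)))) (Sum.inl (Sum.inr (Sum.inl 0)))
        (fun i => Sum.inl (Sum.inr (Sum.inr i)))
        (Sum.elim (Sum.elim s (Sum.elim (fun _ => t) κ)) x) P hAP
        (fun ν => rfl) (fun ν => rfl)
      have h1 : ∀ z : ℂ, ‖z‖ < ε ↔ z.re ^ 2 + z.im ^ 2 < ε ^ 2 := by
        intro z
        have hz : z.re ^ 2 + z.im ^ 2 = ‖z‖ ^ 2 := by
          rw [Complex.sq_norm, Complex.normSq_apply]
          ring
        rw [hz]
        constructor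
        · intro h
          exact pow_lt_pow_left₀ h (norm_nonneg _) (by norm_num)
        · intro h
          exact lt_of_pow_lt_pow_left₀ 2 hε.le h
      constructor
      · intro h μ hμ
        have h2 := h ⟨μ, hμ⟩ (Finset.mem_univ _)
        rw [hF] at h2
        rw [h1]
        have h3 : (coeff μ q) = (((coeff μ q).re : ℂ) + ((coeff μ q).im : ℂ) * Complex.I) :=
          (Complex.re_add_im _).symm
        rw [h3]
        exact h2
      · intro h μ _
        have h2 := h μ.1 μ.2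
        rw [h1] at h2
        have h3 : (coeff μ.1 q) = (((coeff μ.1 q).re : ℂ) + ((coeff μ.1 q).im : ℂ) * Complex.I) :=
          (Complex.re_add_im _).symm
        rw [h3] at h2
        rw [hF]
        exact h2
    obtain ⟨D, L, hDL⟩ := grow' hg n p hp s (by
      intro L
      have h1 : ∀ᶠ j in atTop, ∀ μ ∈ A,
          ‖coeff μ (C (c j) * tr (lam j) (k j) P) - coeff μ q‖ < ε := by
        rw [eventually_all_finset]
        intro μ _
        have h2 := (hconv μ).sub_const (coeff μ q)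
        rw [sub_self] at h2
        have h3 := h2.norm
        rw [norm_zero] at h3
        exact h3.eventually (gt_mem_nhds hε)
      obtain ⟨j, hj1, hj2⟩ := (h1.and (hlamt.eventually_ge_atTop L)).exists
      refine ⟨lam j, hj2, k j, hpos j, ![(c j).re, (c j).im], ?_⟩
      rw [hpm]
      intro μ hμ
      have h4 : (((![(c j).re, (c j).im] : Fin 2 → ℝ) 0 : ℂ) +
          ((![(c j).re, (c j).im] : Fin 2 → ℝ) 1 : ℂ) * Complex.I) = c j := by
        simp only [Matrix.cons_val_zero, Matrix.cons_val_one]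
        exact Complex.re_add_im _
      rw [h4]
      exact hj1 μ hμ)
    refine ⟨D, L, fun t ht => ?_⟩
    obtain ⟨κ, hκ, ht0, x, hx⟩ := hDL t ht
    exact ⟨κ, hκ, ht0, _, (hpm t κ x).1 hx⟩
  have key2 : ∀ m : ℕ, ∃ (t : ℝ) (κ : Fin n → ℝ) (c : ℂ), (m : ℝ) ≤ t ∧ 0 < t ∧
      (m : ℝ) ≤ t / Real.log (2 + t + ‖κ‖) ∧
      ∀ μ ∈ A, ‖coeff μ (C c * tr t κ P) - coeff μ q‖ < 1 / ((m : ℝ) + 1) := by
    intro m
    obtain ⟨D, L, hDL⟩ := key (1 / ((m : ℝ) + 1)) (by positivity)
    obtain ⟨t, h1, h2, h3⟩ := ((log_small D m).and ((eventually_ge_atTop L).and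
      (eventually_ge_atTop (m : ℝ)))).exists
    obtain ⟨κ, hκ, ht0, c, hc⟩ := hDL t h2
    exact ⟨t, κ, c, h3, ht0, h1 ‖κ‖ (norm_nonneg _) hκ, hc⟩
  choose t κ c' h1 h2 h3 h4 using key2
  refine ⟨hq, t, κ, c', h2, tendsto_atTop_mono h1 tendsto_natCast_atTop_atTop,
    tendsto_atTop_mono h3 tendsto_natCast_atTop_atTop, ⟨P.totalDegree, fun j => ?_⟩, fun μ => ?_⟩
  · refine (totalDegree_mul _ _).trans ?_
    rw [totalDegree_C, zero_add]
    exact totalDegree_tr_le _ _ _
  · by_cases hμ : μ ∈ A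
    · rw [tendsto_iff_norm_sub_tendsto_zero]
      exact squeeze_zero (fun j => norm_nonneg _) (fun j => (h4 j μ hμ).le)
        tendsto_one_div_add_atTop_nhds_zero_nat
    · rw [hAq μ hμ]
      simp only [hAt _ _ _ μ hμ]
      exact tendsto_const_nhds

end Pool.Agent.Q96.EG
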